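import Pool.Agent.Helper70.MB.Goals

/-!
Packet 8629 of project MB: the potential is exactly `1` at deep points (`ZERO`).
-/

open MeasureTheory Set Metric
open scoped ENNReal FourierTransform Topology ContDiff
open Pool.Agent.Results.MP_91ee6f_gt
open Pool.Agent.Helper70.MB

namespace Pool.Agent.Helper81.MB

/-- `z(ρ)` -/
noncomputable def zz {n : ℕ} (τ : Measure (En n)) (x₀ : En n) (ρ : ℝ) : ℝ :=
  NN (sx n) (fun x => cut x₀ ρ x * gg τ x)

/-- `a(ρ)` -/
noncomputable def aa {n : ℕ} (τ : Measure (En n)) (x₀ : En n) (ρ : ℝ) : ℝ :=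
  ∫ x, cut x₀ ρ x ^ 2 * |gg τ x|

lemma zz_nonneg {n : ℕ} (τ : Measure (En n)) (x₀ : En n) (ρ : ℝ) : 0 ≤ zz τ x₀ ρ :=
  NN_nonneg _ _

lemma aa_nonneg {n : ℕ} (τ : Measure (En n)) (x₀ : En n) (ρ : ℝ) : 0 ≤ aa τ x₀ ρ :=
  integral_nonneg fun _ => mul_nonneg (sq_nonneg _) (abs_nonneg _)

lemma continuous_gg {n : ℕ} {τ : Measure (En n)}
    (hAd : ∀ (x₀ : En n) (ρ : ℝ), 0 < ρ → Ad (fun x => cut x₀ ρ x * gg τ x)) :
    Continuous (gg τ) := by
  rw [continuous_iff_continuousAt]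
  intro x
  have h1 : Continuous (fun y => cut x 1 y * gg τ y) := (hAd x 1 one_pos).1
  refine h1.continuousAt.congr ?_
  filter_upwards [closedBall_mem_nhds x one_pos] with y hy
  rw [cut_one one_pos (by rwa [mem_closedBall, dist_eq_norm] at hy), one_mul]

lemma continuous_cut {n : ℕ} (x₀ : En n) {ρ : ℝ} (hρ : 0 < ρ) : Continuous (cut x₀ ρ) :=
  (isCut_cut x₀ hρ).1.continuous

lemma integrable_cut_mul {n : ℕ} {f : En n → ℝ} (hf : Continuous f) (x₀ : En n) {ρ : ℝ}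
    (hρ : 0 < ρ) : Integrable (fun x => cut x₀ ρ x * f x) :=
  ((continuous_cut x₀ hρ).mul hf).integrable_of_hasCompactSupport
    ((isCut_cut x₀ hρ).2.mul_right)

lemma integrable_aa {n : ℕ} {τ : Measure (En n)} (hg : Continuous (gg τ)) (x₀ : En n) {ρ : ℝ}
    (hρ : 0 < ρ) : Integrable (fun x => cut x₀ ρ x ^ 2 * |gg τ x|) := by
  have h := integrable_cut_mul (f := fun x => cut x₀ ρ x * |gg τ x|)
    ((continuous_cut x₀ hρ).mul hg.abs) x₀ hρ
  refine h.congr (Filter.Eventually.of_forall fun x => ?_)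
  ring

lemma int_abs_le {n : ℕ} {τ : Measure (En n)} (hg : Continuous (gg τ)) (x₀ : En n) {ρ : ℝ}
    (hρ : 0 < ρ) : ∫ x, |cut x₀ ρ x * gg τ x| ≤ aa τ x₀ (4 * ρ) := by
  refine integral_mono (integrable_cut_mul hg x₀ hρ).abs (integrable_aa hg x₀ (by linarith)) ?_
  intro x
  simp only [abs_mul, abs_of_nonneg (cut_nonneg x₀ ρ x)]
  refine mul_le_mul_of_nonneg_right ?_ (abs_nonneg _)
  by_cases h : ‖x - x₀‖ ≤ 4 * ρ
  · rw [cut_one (ρ := 4 * ρ) (by linarith) h, one_pow]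
    exact cut_le_one _ _ _
  · rw [cut_zero hρ (by linarith [not_le.1 h])]
    positivity

lemma aa_lower {n : ℕ} {τ : Measure (En n)} (hg : Continuous (gg τ)) (x₀ : En n) {ρ η : ℝ}
    (hρ : 0 < ρ) (hη : ∀ x, ‖x - x₀‖ ≤ ρ → η ≤ |gg τ x|) :
    η * (volume : Measure (En n)).real (closedBall x₀ ρ) ≤ aa τ x₀ ρ := by
  have h1 : ∫ x in closedBall x₀ ρ, η ≤ ∫ x in closedBall x₀ ρ, cut x₀ ρ x ^ 2 * |gg τ x| := by
    refine setIntegral_mono_on ?_ (integrable_aa hg x₀ hρ).integrableOn measurableSet_closedBall ?_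
    · exact integrableOn_const (measure_closedBall_lt_top).ne
    · intro x hx
      rw [mem_closedBall, dist_eq_norm] at hx
      rw [cut_one hρ hx, one_pow, one_mul]
      exact hη x hx
  have h2 : ∫ x in closedBall x₀ ρ, cut x₀ ρ x ^ 2 * |gg τ x| ≤ aa τ x₀ ρ :=
    setIntegral_le_integral (integrable_aa hg x₀ hρ)
      (Filter.Eventually.of_forall fun x => mul_nonneg (sq_nonneg _) (abs_nonneg _))
  rw [setIntegral_const, smul_eq_mul, mul_comm] at h1
  exact h1.trans h2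

/-- the final contradiction -/
lemma gg_eq_zero {n : ℕ} {τ : Measure (En n)} (hg : Continuous (gg τ)) (x₀ : En n) {M : ℝ}
    (hM : 0 < M) (h : ∀ j : ℕ, aa τ x₀ (M / 4 ^ j) ≤ 1 / 4 ^ ((n + 1) * j)) : gg τ x₀ = 0 := by
  by_contra h0
  have hpos : 0 < |gg τ x₀| := abs_pos.2 h0
  set η := |gg τ x₀| / 2 with hη
  have hηpos : 0 < η := by rw [hη]; linarith
  have hev : ∀ᶠ x in 𝓝 x₀, η < |gg τ x| :=
    hg.abs.continuousAt.eventually (lt_mem_nhds (show η < |gg τ x₀| by rw [hη]; linarith))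
  obtain ⟨δ, hδ, hball⟩ := Metric.eventually_nhds_iff_ball.1 hev
  have hlim : Filter.Tendsto (fun j : ℕ => ((1 : ℝ) / 4) ^ j) Filter.atTop (𝓝 0) :=
    tendsto_pow_atTop_nhds_zero_of_lt_one (by norm_num) (by norm_num)
  set w₁ := (volume : Measure (En n)).real (ball 0 1) with hw₁
  have hw₁pos : 0 < w₁ := by
    rw [hw₁]
    exact ENNReal.toReal_pos (measure_ball_pos _ _ one_pos).ne' measure_ball_lt_top.ne
  have hA : ∀ᶠ j : ℕ in Filter.atTop, ((1 : ℝ) / 4) ^ j < δ / M :=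
    hlim.eventually (gt_mem_nhds (by positivity))
  have hB : ∀ᶠ j : ℕ in Filter.atTop, ((1 : ℝ) / 4) ^ j < η * (M ^ n * w₁) :=
    hlim.eventually (gt_mem_nhds (by positivity))
  obtain ⟨j, hj1, hj2⟩ := (hA.and hB).exists
  have h4 : (0 : ℝ) < 4 ^ j := by positivity
  have hr : 0 < M / 4 ^ j := by positivity
  have hrd : M / 4 ^ j < δ := by
    rw [one_div, inv_pow, lt_div_iff₀ hM] at hj1
    rwa [div_eq_inv_mul]
  have h5 := aa_lower hg x₀ hr (η := η) (fun x hx => (hball x (by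
    rw [mem_ball, dist_eq_norm]
    exact hx.trans_lt hrd)).le)
  have h6 : (volume : Measure (En n)).real (closedBall x₀ (M / 4 ^ j)) = (M / 4 ^ j) ^ n * w₁ := by
    rw [Measure.real, Measure.addHaar_closedBall _ _ hr.le, ENNReal.toReal_mul,
      ENNReal.toReal_ofReal (by positivity), hw₁, Measure.real]
    simp
  rw [h6] at h5
  have h7 := h5.trans (h j)
  have h8 : η * ((M / 4 ^ j) ^ n * w₁) * 4 ^ (n * j) = η * (M ^ n * w₁) := by
    rw [div_pow, ← pow_mul, mul_comm j n]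
    field_simp
  have h9 : 1 / (4 : ℝ) ^ ((n + 1) * j) * 4 ^ (n * j) = (1 / 4) ^ j := by
    rw [add_mul, one_mul, pow_add, one_div_pow]
    field_simp
  have h10 := mul_le_mul_of_nonneg_right h7 (show (0 : ℝ) ≤ 4 ^ (n * j) by positivity)
  rw [h8, h9] at h10
  linarith

theorem zero : STEPA → APRI → STEPB → TAIL → INTP → SCAL → KEYF → BDD → SEQL → SEQS → ZERO := by
  intro hSA hAP hSB hTA hIN _ hKE _ hSL hSS n hn
  obtain ⟨CA, hCA, hSA⟩ := hSA n hn
  obtain ⟨CB, hCB, hSB⟩ := hSB n hn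
  obtain ⟨CI, hCI, hIN⟩ := hIN n hn
  obtain ⟨_, _, hKE⟩ := hKE n hn
  obtain ⟨M₁, hM₁, hTA⟩ := hTA n hn CB hCB
  set C := max CA CB with hC
  have hCpos : 0 < C := hCA.trans_le (le_max_left _ _)
  obtain ⟨M, hM, hSL⟩ := hSL n C M₁ hCpos hM₁
  have hM1 : 1 ≤ M := hM₁.trans hM
  have hMpos : 0 < M := by linarith
  set C' := max (CB * 2 ^ (2 * n + 1)) (max CB CI) with hC'
  have hC'pos : 0 < C' := hCB.trans_le ((le_max_left _ _).trans (le_max_right _ _))
  have hC'B : CB ≤ C' := (le_max_left _ _).trans (le_max_right _ _)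
  have hC'I : CI ≤ C' := (le_max_right _ _).trans (le_max_right _ _)
  have hC'2 : CB * 2 ^ (2 * n + 1) ≤ C' := le_max_left _ _
  obtain ⟨ε, hε, hSS⟩ := hSS n C' hC'pos
  obtain ⟨L, hL, hSL⟩ := hSL ε hε
  refine ⟨max L (M / 2), lt_max_of_lt_left hL, fun X τ hKT x₀ hX => ?_⟩
  have hfin := hKT.fin
  have hAd : ∀ (x₀ : En n) (ρ : ℝ), 0 < ρ → Ad (fun x => cut x₀ ρ x * gg τ x) :=
    fun x₀ ρ hρ => (hKE τ hfin x₀ ρ hρ).1
  have hg : Continuous (gg τ) := continuous_gg hAd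
  have hsx : sx n - 1 ≤ sx n := by linarith
  -- large scales
  have hbig := hSL (zz τ x₀) (aa τ x₀) (zz_nonneg τ x₀) (aa_nonneg τ x₀) (by
      intro ρ hρ
      have h1 := hSA X τ hKT x₀ ρ hρ
      have h2 : CA * ρ ^ n ≤ C * ρ ^ n :=
        mul_le_mul_of_nonneg_right (le_max_left _ _) (by positivity)
      have h3 : CA / ρ ^ 2 * zz τ x₀ ρ ≤ C / ρ ^ 2 * zz τ x₀ ρ :=
        mul_le_mul_of_nonneg_right
          (div_le_div_of_nonneg_right (le_max_left _ _) (by positivity)) (zz_nonneg τ x₀ ρ)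
      unfold zz at *
      linarith) (by
      exact hAP n hn τ hfin x₀) (by
      intro ρ hρ hρL
      have hρ1 : 1 ≤ ρ := hM₁.trans hρ
      have hρpos : 0 < ρ := by linarith
      have h1 := hSB X τ hKT x₀ ρ hρpos
        ((closedBall_subset_closedBall (hρL.trans (le_max_left _ _))).trans hX) (by
          intro y hy
          have := hTA ρ hρ X τ hKT x₀ 0 y (by simpa using hy)
          simp only [pow_zero, div_one, Finset.range_zero, Finset.sum_empty, mul_zero,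
            add_zero] at this
          linarith)
      have h2 : max 1 ρ⁻¹ = 1 := max_eq_left (inv_le_one_of_one_le₀ hρ1)
      rw [h2, one_pow, mul_one] at h1
      have h3 := (hAd x₀ ρ hρpos).NN_mono hsx le_rfl
      have h4 : CB * ρ⁻¹ ^ 2 * NN (sx n - 1) (fun x => cut x₀ ρ x * gg τ x) ≤
          C / ρ ^ 2 * zz τ x₀ ρ := by
        have h5 : C / ρ ^ 2 = C * ρ⁻¹ ^ 2 := by rw [inv_pow, div_eq_mul_inv]
        rw [h5]
        exact mul_le_mul (mul_le_mul_of_nonneg_right (le_max_right _ _) (by positivity)) h3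
          (NN_nonneg _ _) (by positivity)
      unfold zz aa at *
      linarith)
  -- small scales
  have hsmall := hSS (fun j => zz τ x₀ (M / 4 ^ j) + aa τ x₀ (M / 4 ^ j))
    (fun j => add_nonneg (zz_nonneg _ _ _) (aa_nonneg _ _ _))
    (by simpa using hbig.1) (by simpa using hbig.2) (by
      intro j hj hsum θ hθ hθ1
      have h4 : (0 : ℝ) < 4 ^ j := by positivity
      have h41 : (1 : ℝ) ≤ 4 ^ j := one_le_pow₀ (by norm_num)
      set ρ := M / 4 ^ j with hρ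
      have hρpos : 0 < ρ := by rw [hρ]; positivity
      have hρM : ρ ≤ M := div_le_self hMpos.le h41
      have hρinv : ρ⁻¹ ≤ 4 ^ j := by
        rw [hρ, inv_div]
        exact div_le_self h4.le hM1
      have hstep := hSB X τ hKT x₀ ρ hρpos
        ((closedBall_subset_closedBall ((by linarith : ρ / 2 ≤ M / 2).trans
          (le_max_right _ _))).trans hX) (by
          intro y hy
          have h1 := hTA M hM X τ hKT x₀ j y hy
          have h2 : CB * ∑ i ∈ Finset.range j, 2 ^ (2 * n + 1) * (4 ^ (i + 1) / M) ^ (2 * n + 1) *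
              ∫ x, cut x₀ (M / 4 ^ i) x ^ 2 * |gg τ x| ≤ 1 / 4 := by
            refine le_trans ?_ hsum
            rw [Finset.mul_sum, Finset.mul_sum]
            refine Finset.sum_le_sum fun i _ => ?_
            have h3 : ((4 : ℝ) ^ (i + 1) / M) ^ (2 * n + 1) ≤ 4 ^ ((2 * n + 1) * (i + 1)) := by
              rw [mul_comm (2 * n + 1), pow_mul]
              exact pow_le_pow_left₀ (by positivity) (div_le_self (by positivity) hM1) _
            have h5 : ∫ x, cut x₀ (M / 4 ^ i) x ^ 2 * |gg τ x| ≤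
                zz τ x₀ (M / 4 ^ i) + aa τ x₀ (M / 4 ^ i) :=
              le_add_of_nonneg_left (zz_nonneg _ _ _)
            have h6 : 0 ≤ ∫ x, cut x₀ (M / 4 ^ i) x ^ 2 * |gg τ x| := aa_nonneg τ x₀ (M / 4 ^ i)
            calc CB * (2 ^ (2 * n + 1) * (4 ^ (i + 1) / M) ^ (2 * n + 1) *
                ∫ x, cut x₀ (M / 4 ^ i) x ^ 2 * |gg τ x|)
                = CB * 2 ^ (2 * n + 1) * ((4 ^ (i + 1) / M) ^ (2 * n + 1) *
                ∫ x, cut x₀ (M / 4 ^ i) x ^ 2 * |gg τ x|) := by ring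
              _ ≤ C' * (4 ^ ((2 * n + 1) * (i + 1)) *
                (zz τ x₀ (M / 4 ^ i) + aa τ x₀ (M / 4 ^ i))) := by
                  refine mul_le_mul hC'2 (mul_le_mul h3 h5 h6 (by positivity)) ?_ hC'pos.le
                  exact mul_nonneg (by positivity) h6
          linarith)
      have hfac : ρ⁻¹ ^ 2 * (max 1 ρ⁻¹) ^ (2 * n) ≤ 4 ^ ((2 * n + 2) * j) := by
        have e1 : ρ⁻¹ ^ 2 ≤ ((4 : ℝ) ^ j) ^ 2 := pow_le_pow_left₀ (by positivity) hρinv _
        have e2 : (max 1 ρ⁻¹) ^ (2 * n) ≤ ((4 : ℝ) ^ j) ^ (2 * n) :=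
          pow_le_pow_left₀ (by positivity) (max_le h41 hρinv) _
        calc ρ⁻¹ ^ 2 * (max 1 ρ⁻¹) ^ (2 * n) ≤ ((4 : ℝ) ^ j) ^ 2 * ((4 : ℝ) ^ j) ^ (2 * n) :=
              mul_le_mul e1 e2 (by positivity) (by positivity)
          _ = 4 ^ ((2 * n + 2) * j) := by rw [← pow_add, ← pow_mul]; congr 1; ring
      have hint := hIN _ (hAd x₀ ρ hρpos) θ hθ hθ1
      have habs := int_abs_le hg x₀ hρpos
      have h4ρ : 4 * ρ = M / 4 ^ (j - 1) := by
        obtain ⟨k, rfl⟩ : ∃ k, j = k + 1 := ⟨j - 1, by omega⟩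
        rw [hρ, Nat.add_sub_cancel, pow_succ]
        field_simp
      rw [h4ρ] at habs
      have habs2 : ∫ x, |cut x₀ ρ x * gg τ x| ≤
          zz τ x₀ (M / 4 ^ (j - 1)) + aa τ x₀ (M / 4 ^ (j - 1)) :=
        habs.trans (le_add_of_nonneg_left (zz_nonneg _ _ _))
      have hI0 : 0 ≤ ∫ x, |cut x₀ ρ x * gg τ x| := integral_nonneg fun _ => abs_nonneg _
      have hsq := pow_le_pow_left₀ hI0 habs2 2
      have hNN : NN (sx n - 1) (fun x => cut x₀ ρ x * gg τ x) ≤
          θ * (zz τ x₀ ρ + aa τ x₀ ρ) + C' / θ ^ n *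
            (zz τ x₀ (M / 4 ^ (j - 1)) + aa τ x₀ (M / 4 ^ (j - 1))) ^ 2 := by
        refine hint.trans (add_le_add ?_ ?_)
        · exact mul_le_mul_of_nonneg_left (le_add_of_nonneg_right (aa_nonneg _ _ _)) hθ.le
        · exact mul_le_mul (div_le_div_of_nonneg_right hC'I (by positivity)) hsq (by positivity)
            (by positivity)
      have hnext : M / 4 ^ (j + 1) = ρ / 4 := by
        rw [hρ, pow_succ]
        field_simp
      rw [hnext]
      have hfin2 : CB * (ρ⁻¹ ^ 2 * (max 1 ρ⁻¹) ^ (2 * n)) *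
          NN (sx n - 1) (fun x => cut x₀ ρ x * gg τ x) ≤ C' * 4 ^ ((2 * n + 2) * j) *
          (θ * (zz τ x₀ ρ + aa τ x₀ ρ) + C' / θ ^ n *
            (zz τ x₀ (M / 4 ^ (j - 1)) + aa τ x₀ (M / 4 ^ (j - 1))) ^ 2) := by
        refine mul_le_mul (mul_le_mul hC'B hfac ?_ hC'pos.le) hNN (NN_nonneg _ _) ?_
        · positivity
        · positivity
      exact le_trans hstep hfin2)
  refine gg_eq_zero hg x₀ hMpos fun j => ?_
  exact (le_add_of_nonneg_left (zz_nonneg _ _ _)).trans (hsmall j)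

end Pool.Agent.Helper81.MB
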